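import Pool.Agent.Lib.H76V.VA1

/-!
# The decomposition of an irreducible symplectic Lie algebra with many involutions
-/

set_option autoImplicit false
set_option linter.unusedSectionVars false
namespace Pool.Agent.H76V
open Module Matrix Pool.Agent.H53Toric
open Pool.Agent.H76T (IsIdeal Fam tr_skew scalar_skew adjoin_comm)

variable {κ : Type*} [Fintype κ] [DecidableEq κ] {K : Type*} [Field K]

/-- An irreducible Lie algebra of operators, skew for the alternating form with Gram matrix `J`,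
such that only the scalars commute with all its involutions. -/
structure Cmp (L : Submodule K (Module.End K (κ → K))) (J : Matrix κ κ K) : Prop where
  lie : IsLie L
  irr : Irr L
  Jt : Jᵀ = -J
  Jd : IsUnit J.det
  skew : ∀ X ∈ L, adjE J X = -X
  gen : ∀ T : Module.End K (κ → K), (∀ y ∈ L, y * y = 1 → T * y = y * T) → ∃ c : K, T = c • 1

variable [CharZero K] {L : Submodule K (Module.End K (κ → K))} {J : Matrix κ κ K}

theorem Cmp.tr (h : Cmp L J) : ∀ X ∈ L, LinearMap.trace K (κ → K) X = 0 :=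
  fun X hX => tr_skew h.Jd (h.skew X hX)

variable [IsAlgClosed K] [Nonempty κ] {m : ℕ} {I : Fin m → Submodule K (Module.End K (κ → K))}

/-- Every minimal ideal contains an involution. -/
theorem Cmp.inv_mem (h : Cmp L J) (hF : Fam L I) (k : Fin m) : ∃ y ∈ I k, y * y = 1 := by
  by_contra hcon
  push Not at hcon
  apply hF.ne_bot k
  rw [eq_bot_iff]
  intro X hX
  obtain ⟨c, hc⟩ := h.gen X (fun y hy hy2 => by
    have hy0 : y ≠ 0 := by
      rintro rfl
      rw [mul_zero] at hy2
      exact zero_ne_one hy2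
    obtain ⟨j, hj⟩ := hF.one h.irr h.tr hy hy0 (a := 0) (b := -1) (by
      rw [hy2]; module)
    have hkj : k ≠ j := by
      rintro rfl
      exact hcon y hj hy2
    exact hF.comm k j hkj X hX y hj)
  rw [Submodule.mem_bot, hc]
  apply scalar_skew h.Jt h.Jd
  rw [← hc]
  exact h.skew X ((hF.ideal k).1 hX)

theorem Fam.disj (hF : Fam L I) {i j : Fin m} (hij : i ≠ j) {X : Module.End K (κ → K)}
    (hi : X ∈ I i) (hj : X ∈ I j) : X = 0 := by
  have hid : IsIdeal L (I i ⊓ I j) :=
    ⟨inf_le_left.trans (hF.ideal i).1, fun Z hZ Y hY => ⟨(hF.ideal i).2 Z hZ Y hY.1,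
      (hF.ideal j).2 Z hZ Y hY.2⟩⟩
  have h1 : X ∈ I i ⊓ I j := ⟨hi, hj⟩
  rcases hF.min i _ hid inf_le_left with h7 | h7
  · rw [h7, Submodule.mem_bot] at h1
    exact h1
  · rcases hF.min j _ hid inf_le_right with h8 | h8
    · rw [h8, Submodule.mem_bot] at h1
      exact h1
    · exact absurd (hF.inj (h7.symm.trans h8)) hij

/-- The algebra generated by a minimal ideal. -/
abbrev alg (I : Fin m → Submodule K (Module.End K (κ → K))) (j : Fin m) :
    Subalgebra K (Module.End K (κ → K)) :=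
  Algebra.adjoin K (I j : Set (Module.End K (κ → K)))

/-- The algebra generated by the other minimal ideals. -/
abbrev calg (I : Fin m → Submodule K (Module.End K (κ → K))) (j : Fin m) :
    Subalgebra K (Module.End K (κ → K)) :=
  ⨆ i : {i // i ≠ j}, alg I i.1

theorem Fam.calg_comm (hF : Fam L I) (j : Fin m) :
    ∀ X ∈ calg I j, ∀ Y ∈ alg I j, X * Y = Y * X := by
  have h2 : calg I j ≤ Subalgebra.centralizer K (alg I j : Set (Module.End K (κ → K))) := by
    refine iSup_le fun i Y hY => ?_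
    rw [Subalgebra.mem_centralizer_iff]
    exact fun X hX => hF.acomm j i.1 i.2.symm X hX Y hY
  intro X hX Y hY
  have h3 := h2 hX
  rw [Subalgebra.mem_centralizer_iff] at h3
  exact (h3 Y hY).symm

theorem Fam.calg_top (hF : Fam L I) (hirr : Irr L) (j : Fin m) : calg I j ⊔ alg I j = ⊤ := by
  rw [eq_top_iff, ← hF.sup_top hirr]
  refine iSup_le fun i => ?_
  by_cases hij : i = j
  · rw [hij]
    exact le_sup_right
  · exact le_sup_of_le_left (le_iSup (fun i : {i // i ≠ j} => alg I i.1) ⟨i, hij⟩)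

theorem mem_calg {i j : Fin m} (hij : i ≠ j) {X : Module.End K (κ → K)} (hX : X ∈ I i) :
    X ∈ calg I j :=
  (le_iSup (fun i : {i // i ≠ j} => alg I i.1) ⟨i, hij⟩) (Algebra.subset_adjoin hX)

theorem mem_alg {j : Fin m} {X : Module.End K (κ → K)} (hX : X ∈ I j) : X ∈ alg I j :=
  Algebra.subset_adjoin hX

/-- the idempotent of an involution -/
theorem half_idem {y : Module.End K (κ → K)} (hy : y * y = 1) :
    ((1 / 2 : K) • (1 + y)) * ((1 / 2 : K) • (1 + y)) = (1 / 2 : K) • (1 + y) := by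
  rw [smul_mul_smul_comm, mul_add, add_mul, add_mul, hy]
  simp only [mul_one, one_mul]
  module

theorem half_rank {y : Module.End K (κ → K)} (hy : y * y = 1)
    (htr : LinearMap.trace K (κ → K) y = 0) :
    2 * finrank K (LinearMap.range ((1 / 2 : K) • (1 + y))) = finrank K (κ → K) := by
  have h1 := trace_idem (half_idem hy)
  rw [map_smul, map_add, htr, add_zero, LinearMap.trace_one, smul_eq_mul] at h1
  have h2 : (finrank K (κ → K) : K) = 2 * (finrank K (LinearMap.range ((1 / 2 : K) • (1 + y))) : K) := by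
    rw [← h1]; ring
  exact_mod_cast h2.symm

/-- The dimensions of the two factors. -/
theorem Cmp.dims (h : Cmp L J) (hF : Fam L I) {i j : Fin m} (hij : i ≠ j) :
    ∃ a d : ℕ, finrank K (calg I j) = a * a ∧ finrank K (alg I j) = d * d ∧
      finrank K (κ → K) = a * d ∧ Even a ∧ Even d ∧
      (∀ N ∈ alg I j, ∀ X ∈ alg I j, N * X * N = N → a ∣ finrank K (LinearMap.range N)) ∧
      (∀ N ∈ calg I j, ∀ X ∈ calg I j, N * X * N = N →
        d ∣ finrank K (LinearMap.range N)) := by
  obtain ⟨a, d, ha, hd, hV, h1, h2⟩ := two_rank' (Fam.calg_comm hF j) (Fam.calg_top hF h.irr j)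
  have hV0 : 0 < finrank K (κ → K) := finrank_pos
  refine ⟨a, d, ha, hd, hV, ?_, ?_, h1, h2⟩
  · obtain ⟨y, hy, hy2⟩ := h.inv_mem hF i
    have hf : (1 / 2 : K) • (1 + y) ∈ calg I j :=
      Subalgebra.smul_mem _ (Subalgebra.add_mem _ (Subalgebra.one_mem _) (mem_calg hij hy)) _
    have h3 := h2 _ hf 1 (Subalgebra.one_mem _) (by rw [mul_one, half_idem hy2])
    have h4 := half_rank hy2 (h.tr y ((hF.ideal i).1 hy))
    obtain ⟨t, ht⟩ := h3
    rw [ht, hV] at h4
    have hd0 : 0 < d := by
      rcases Nat.eq_zero_or_pos d with h5 | h5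
      · rw [h5, mul_zero] at hV; omega
      · exact h5
    have h5 : a = 2 * t := by
      apply Nat.eq_of_mul_eq_mul_left hd0
      rw [mul_comm d a, ← h4]; ring
    exact ⟨t, by omega⟩
  · obtain ⟨y, hy, hy2⟩ := h.inv_mem hF j
    have hf : (1 / 2 : K) • (1 + y) ∈ alg I j :=
      Subalgebra.smul_mem _ (Subalgebra.add_mem _ (Subalgebra.one_mem _) (mem_alg hy)) _
    have h3 := h1 _ hf 1 (Subalgebra.one_mem _) (by rw [mul_one, half_idem hy2])
    have h4 := half_rank hy2 (h.tr y ((hF.ideal j).1 hy))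
    obtain ⟨t, ht⟩ := h3
    rw [ht, hV] at h4
    have ha0 : 0 < a := by
      rcases Nat.eq_zero_or_pos a with h5 | h5
      · rw [h5, zero_mul] at hV; omega
      · exact h5
    have h5 : d = 2 * t := by
      apply Nat.eq_of_mul_eq_mul_left ha0
      rw [← h4]; ring
    exact ⟨t, by omega⟩

/-- A partner in the same ideal. -/
theorem Cmp.partner (h : Cmp L J) (hF : Fam L I) {j : Fin m} {N : Module.End K (κ → K)}
    (hN : N ∈ I j) (hN2 : N * N = 0) : ∃ X ∈ I j, N * X * N = N := by
  obtain ⟨X, hX, hNX⟩ := exists_partner h.lie h.irr h.tr ((hF.ideal j).1 hN) hN2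
  have h1 : X ∈ ⨆ j, I j := by rw [hF.sup]; exact hX
  obtain ⟨f, hfI, hfX⟩ := (Submodule.mem_iSup_iff_exists_finsupp I X).1 h1
  have hXs : X = f j + ∑ i ∈ Finset.univ.erase j, f i := by
    rw [Finset.add_sum_erase _ _ (Finset.mem_univ j), ← hfX, Finsupp.sum_fintype]
    intro _; rfl
  refine ⟨f j, hfI j, ?_⟩
  have h2 : N * (∑ i ∈ Finset.univ.erase j, f i) * N = 0 := by
    rw [Finset.mul_sum, Finset.sum_mul]
    apply Finset.sum_eq_zero
    intro i hi
    rw [hF.comm j i (Finset.ne_of_mem_erase hi).symm N hN (f i) (hfI i), mul_assoc, hN2,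
      mul_zero]
  have h3 := hNX
  rw [hXs, mul_add, add_mul, h2, add_zero] at h3
  exact h3

end Pool.Agent.H76V
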