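import Pool.Agent.Lib.H76V.VA4

/-!
# The component theorem
-/

set_option autoImplicit false
set_option linter.unusedSectionVars false
namespace Pool.Agent.H76V
open Module Matrix Pool.Agent.H53Toric
open Pool.Agent.H76T (IsIdeal Fam tr_skew scalar_skew exists_fam)

variable {κ : Type*} [Fintype κ] [DecidableEq κ] {K : Type*} [Field K]
variable [CharZero K] {L : Submodule K (Module.End K (κ → K))} {J : Matrix κ κ K}
variable [IsAlgClosed K] [Nonempty κ]

theorem four_dvd_centralBinom {k : ℕ} (hk : 3 ≤ k) (hko : Odd k) : 4 ∣ k.centralBinom := by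
  obtain ⟨n, rfl⟩ : ∃ n, k = n + 1 := ⟨k - 1, by omega⟩
  have h1 := Nat.succ_mul_centralBinom_succ n
  obtain ⟨t, ht⟩ := Nat.two_dvd_centralBinom_of_one_le (n := n) (by omega)
  have h2 : 4 ∣ (n + 1) * (n + 1).centralBinom := by
    rw [h1, ht]
    exact ⟨(2 * n + 1) * t, by ring⟩
  have h3 : Nat.Coprime 4 (n + 1) := by
    have : Nat.Coprime (2 ^ 2) (n + 1) :=
      Nat.Coprime.pow_left 2 ((Nat.coprime_two_left).2 hko)
    exact this
  exact h3.dvd_of_dvd_mul_left h2

/-- the simple case -/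
theorem Cmp.simple (h : Cmp L J) {I : Fin 1 → Submodule K (Module.End K (κ → K))}
    (hF : Fam L I) :
    (∀ X : Module.End K (κ → K), adjE J X = -X → X ∈ L) ∨
    (∃ m : ℕ, 5 ≤ m ∧ (m % 4 = 1 ∨ m % 4 = 2) ∧ finrank K (κ → K) = 2 ^ m ∧
      ∀ N ∈ L, N * N = 0 → N ≠ 0 → 4 * finrank K (LinearMap.range N) = finrank K (κ → K) ∨
        2 * finrank K (LinearMap.range N) = finrank K (κ → K)) ∨
    (∃ k : ℕ, 3 ≤ k ∧ Odd k ∧ finrank K (κ → K) = k.centralBinom ∧
      ∀ N ∈ L, N * N = 0 → N ≠ 0 →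
        finrank K (LinearMap.range N) = (k - 1).centralBinom) := by
  have hL : I 0 = L := by
    rw [← hF.sup]
    apply le_antisymm
    · exact le_iSup I 0
    · apply iSup_le
      intro j
      rw [Subsingleton.elim j 0]
  obtain ⟨y, hy, hy2⟩ := h.inv_mem hF 0
  have hcore : H49M.Core L (om J) (adjE J) :=
    { lie := h.lie
      irr := h.irr
      simple := fun M hM hM' => by
        have h1 := hF.min 0 M ⟨hM, hM'⟩ (by rw [hL]; exact hM)
        rwa [hL] at h1
      alt := om_alt h.Jt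
      nd := by
        intro v hv
        apply om_nd h.Jd
        intro w
        rw [omega_antisymm (om_alt h.Jt), hv, neg_zero]
      spec := H49M.C0_spec h.Jd
      skew := h.skew }
  exact H49M.coreR hcore ((hF.ideal 0).1 hy) hy2

/-- **The component theorem.** -/
theorem Cmp.full (h : Cmp L J) (hcase : ¬ 4 ∣ Fintype.card κ ∨
      ((∃ N ∈ L, N * N = 0 ∧ N ≠ 0 ∧
        ∀ a : ℕ, Even a → 2 * a ∣ Fintype.card κ → a ∣ finrank K (LinearMap.range N) →
        (a = 2 → 4 ∣ finrank K (LinearMap.range N)) →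
        ∃ (x x' : Module.End K (κ → K)) (c c' : K) (p : Module.End K (κ → K)),
          x * x' = 1 ∧ x' * x = 1 ∧ (∀ X ∈ L, x * X * x' ∈ L) ∧ (∀ X ∈ L, x' * X * x ∈ L) ∧
          c ≠ 0 ∧ c' ≠ 0 ∧ x * N = c • N ∧ N * x = c' • N ∧ p * p = p ∧
          (∀ T, T * x = x * T → T * p = p * T) ∧ ¬ a ∣ finrank K (LinearMap.range p)) ∧
      (∀ m : ℕ, 5 ≤ m → (m % 4 = 1 ∨ m % 4 = 2) → Fintype.card κ = 2 ^ m →
        ∃ N ∈ L, N * N = 0 ∧ N ≠ 0 ∧ 4 * finrank K (LinearMap.range N) ≠ Fintype.card κ ∧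
        2 * finrank K (LinearMap.range N) ≠ Fintype.card κ) ∧
      (∀ k : ℕ, 3 ≤ k → Odd k → Fintype.card κ = k.centralBinom →
        ∃ N ∈ L, N * N = 0 ∧ N ≠ 0 ∧ finrank K (LinearMap.range N) ≠ (k - 1).centralBinom)))
    {X : Module.End K (κ → K)} (hX : adjE J X = -X) : X ∈ L := by
  classical
  have hcard : finrank K (κ → K) = Fintype.card κ := Module.finrank_fintype_fun_eq_card K
  obtain ⟨m, I, hF⟩ := exists_fam h.lie h.irr h.tr
  rcases Nat.lt_or_ge m 1 with hm | hm
  · -- no ideals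
    have hm0 : m = 0 := by omega
    subst hm0
    have hL : L = ⊥ := by
      rw [← hF.sup]
      exact iSup_of_empty I
    obtain ⟨c, hc⟩ := h.gen X (fun y hy hy2 => by
      rw [hL, Submodule.mem_bot] at hy
      rw [hy, mul_zero] at hy2
      exact absurd hy2 zero_ne_one)
    have h1 : X = 0 := by
      rw [hc]
      apply scalar_skew h.Jt h.Jd
      rw [← hc]
      exact hX
    rw [h1]
    exact L.zero_mem
  rcases Nat.lt_or_ge m 2 with hm2 | hm2
  · -- the simple case
    have hm1 : m = 1 := by omega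
    subst hm1
    rcases h.simple hF with h1 | ⟨m, hm5, hm4, hd, hN⟩ | ⟨k, hk3, hko, hd, hN⟩
    · exact h1 X hX
    · exfalso
      rw [hcard] at hd
      rcases hcase with h4 | ⟨-, hr, -⟩
      · apply h4
        rw [hd]
        exact ⟨2 ^ (m - 2), by
          have : m = 2 + (m - 2) := by omega
          nth_rw 1 [this]
          rw [pow_add]; norm_num⟩
      · obtain ⟨N, hNL, hN2, hN0, hr1, hr2⟩ := hr m hm5 hm4 hd
        rcases hN N hNL hN2 hN0 with h2 | h2
        · exact hr1 (by rw [← hcard]; exact h2)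
        · exact hr2 (by rw [← hcard]; exact h2)
    · exfalso
      rw [hcard] at hd
      rcases hcase with h4 | ⟨-, -, hr⟩
      · apply h4
        rw [hd]
        exact four_dvd_centralBinom hk3 hko
      · obtain ⟨N, hNL, hN2, hN0, hr1⟩ := hr k hk3 hko hd
        exact hr1 (hN N hNL hN2 hN0)
  · -- several ideals
    exfalso
    rcases hcase with h4 | ⟨⟨N, hNL, hN2, hN0, hr⟩, -, -⟩
    · obtain ⟨a, d, -, -, hV, ⟨s, hs⟩, ⟨t, ht⟩, -, -⟩ := h.dims hF
        (i := ⟨1, by omega⟩) (j := ⟨0, by omega⟩) (by simp)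
      apply h4
      rw [← hcard, hV, hs, ht]
      exact ⟨s * t, by ring⟩
    · obtain ⟨j, hj⟩ := hF.one h.irr h.tr hNL hN0 (a := 0) (b := 0) (by
        rw [hN2, zero_smul, zero_smul, add_zero, add_zero])
      obtain ⟨i, hij⟩ : ∃ i : Fin m, i ≠ j := by
        by_cases hj0 : j = ⟨0, by omega⟩
        · refine ⟨⟨1, by omega⟩, ?_⟩
          rw [hj0]
          simp
        · exact ⟨⟨0, by omega⟩, fun e => hj0 e.symm⟩
      obtain ⟨a, d, ha, -, hV, hae, ⟨t, ht⟩, h1, -⟩ := h.dims hF hij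
      obtain ⟨X', hX', hNX⟩ := h.partner hF hj hN2
      have hdvd : a ∣ finrank K (LinearMap.range N) :=
        h1 N (mem_alg hj) X' (mem_alg hX') hNX
      obtain ⟨x, x', c, c', p, e1, e2, e3, e4, hc, hc', e5, e6, hp, hpx, hnd⟩ := hr a hae
        (by rw [← hcard, hV, ht]; exact ⟨t, by ring⟩) hdvd
        (fun ha2 => h.four hF hij ha ha2 hj)
      apply hnd
      refine h.idem_dvd hF ha hp fun z hz => ?_
      have h3 := h.commute hF hj hN0 e1 e2 e3 e4 hc hc' e5 e6 z hz
      exact (hpx z h3.symm).symm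

end Pool.Agent.H76V
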