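import Pool.Agent.Lib.H76V.VB2

/-!
# The monodromy group
-/

set_option autoImplicit false
set_option linter.unusedSectionVars false
namespace Pool.Agent.H76V
open Module Matrix Polynomial Pool.Agent.H53Toric
open Pool.Agent.H76U (IsSplitting split4_of Split4 idem_factor rank_idem_map)
open Pool.Agent.H76RM (van spanK similD Seed Setup comm_span)
open Pool.Agent.H76T (rK rK_apply img_sub_inf nil_of_zar seed_of_fu monodromy_seed)

variable {ι : Type*} [Fintype ι] [DecidableEq ι]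
variable {L : Type*} [Field L] {K : Type*} [Field K] [Algebra L K] {G : Type*} [Group G]

/-- The conditions on a component of rank `n` cut out by the idempotent `p`: either `4` does not
divide `n`, or there are unipotent elements `1 + N`, `N² = 0`, of the monodromy group, `N p ≠ 0`,
with the following properties: the first one is such that for every even number `a` such that
`2 a` divides `n`, `a` divides the rank `r` of `N p` and, if `a = 2`, `4` divides `r`, there is an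
element `x` of the image of `ρ` which acts as a scalar on the range of `N p` and has a spectral
idempotent on the component (`f(x) p`) of rank not divisible by `a`; the others are needed only
for exceptional `n`, and the rank of `N p` is not one of the exceptional ranks. -/
def TorK (K : Type*) [Field K] [Algebra L K] (ρ : G →* Matrix.GeneralLinearGroup ι L)
    (p : Matrix ι ι K) (n : ℕ) : Prop :=
  ¬ 4 ∣ n ∨ ((∃ N : Matrix ι ι K, N * N = 0 ∧ 1 + N ∈ zar (img K ρ ⊤) ∧ N * p ≠ 0 ∧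
      ∀ a : ℕ, Even a → 2 * a ∣ n → a ∣ (N * p).rank → (a = 2 → 4 ∣ (N * p).rank) →
      ∃ (σ : G) (c : K) (f : K[X]), c ≠ 0 ∧
        (ρ σ).1.map (algebraMap L K) * N * p = c • (N * p) ∧
        (aeval ((ρ σ).1.map (algebraMap L K)) f * p) *
          (aeval ((ρ σ).1.map (algebraMap L K)) f * p) =
            aeval ((ρ σ).1.map (algebraMap L K)) f * p ∧
        ¬ a ∣ (aeval ((ρ σ).1.map (algebraMap L K)) f * p).rank) ∧
    (∀ m : ℕ, 5 ≤ m → (m % 4 = 1 ∨ m % 4 = 2) → n = 2 ^ m →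
      ∃ N : Matrix ι ι K, N * N = 0 ∧ 1 + N ∈ zar (img K ρ ⊤) ∧ N * p ≠ 0 ∧
        4 * (N * p).rank ≠ n ∧ 2 * (N * p).rank ≠ n) ∧
    (∀ k : ℕ, 3 ≤ k → Odd k → n = k.centralBinom →
      ∃ N : Matrix ι ι K, N * N = 0 ∧ 1 + N ∈ zar (img K ρ ⊤) ∧ N * p ≠ 0 ∧
        (N * p).rank ≠ (k - 1).centralBinom))

theorem mk_sh [CharZero L] [CharZero K] [IsAlgClosed K] [Nonempty ι] {ψ : Matrix ι ι ℚ}
    (hψ : ψᵀ = -ψ) (hψ0 : ψ.det ≠ 0) (D : Subalgebra ℚ (Matrix ι ι ℚ))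
    (ρ : G →* Matrix.GeneralLinearGroup ι L)
    (lin : ∀ σ : G, ∀ d ∈ D, (ρ σ).1 * d.map (algebraMap ℚ L) =
      d.map (algebraMap ℚ L) * (ρ σ).1)
    (sim : ∀ σ : G, ∃ c : L, (ρ σ).1ᵀ * ψ.map (algebraMap ℚ L) * (ρ σ).1 =
      c • ψ.map (algebraMap ℚ L))
    (semis : ∀ H : Subgroup G, H.FiniteIndex → ∀ W : Submodule K (ι → K),
      (∀ s ∈ img K ρ H, ∀ w ∈ W, s *ᵥ w ∈ W) →
      ∃ W' : Submodule K (ι → K), (∀ s ∈ img K ρ H, ∀ w ∈ W', s *ᵥ w ∈ W') ∧ IsCompl W W')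
    (commt : ∀ H : Subgroup G, H.FiniteIndex → ∀ y : Matrix ι ι K,
      (∀ s ∈ img K ρ H, y * s = s * y) → y ∈ spanK K D)
    {𝓗 : Set (Matrix ι ι K)} (h𝓗 : ∀ x ∈ 𝓗, x ∈ hodgeProj (img K ρ ⊤))
    (h01 : ∀ x ∈ 𝓗, x ≠ 0 ∧ x ≠ 1) {H' : Subgroup G} (hH' : H'.FiniteIndex)
    (hgen : img K ρ H' ⊆ zar (Submonoid.closure {m | ∃ h ∈ 𝓗, ∃ t : K,
      t ≠ 0 ∧ m = 1 + (t - 1) • h} : Set (Matrix ι ι K)))
    {H : Subgroup G} (hfin : H.FiniteIndex) (hprime : (van (img K ρ H)).IsPrime) :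
    SH (img K ρ H) (ψ.map (algebraMap ℚ K)) (spanK K D) (rK K ρ) 𝓗 := by
  obtain ⟨hJ, hdet⟩ := gram_basic hψ hψ0 K
  set J : Matrix ι ι K := ψ.map (algebraMap ℚ K) with hJdef
  have hlinK : ∀ σ : G, ∀ d ∈ D, (ρ σ).1.map (algebraMap L K) * d.map (algebraMap ℚ K) =
      d.map (algebraMap ℚ K) * (ρ σ).1.map (algebraMap L K) := by
    intro σ d hd
    have h1 := congrArg (fun m : Matrix ι ι L => m.map (algebraMap L K)) (lin σ d hd)
    have h2 : (d.map (algebraMap ℚ L)).map (algebraMap L K) = d.map (algebraMap ℚ K) := by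
      ext i j
      simp
    simp only [Matrix.map_mul] at h1
    rw [h2] at h1
    exact h1
  have hsimG : ∀ x : G, ∃ c : K, ((ρ x).1.map (algebraMap L K))ᵀ * J *
      (ρ x).1.map (algebraMap L K) = c • J := by
    intro x
    obtain ⟨c, hc⟩ := sim x
    exact ⟨_, sim_map hc⟩
  have hsimI : ∀ H' : Subgroup G, ∀ s ∈ img K ρ H', ∃ c : K, sᵀ * J * s = c • J := by
    rintro H' _ ⟨y, -, rfl⟩
    exact hsimG y
  obtain ⟨k, l, hkl⟩ : ∃ k l, J k l ≠ 0 := by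
    by_contra hcon
    push Not at hcon
    have : J = 0 := by
      ext i j
      exact hcon i j
    rw [this, Matrix.det_zero] at hdet
    exact not_isUnit_zero hdet
  have hne : J ≠ 0 := by
    intro h0
    apply hkl
    rw [h0]; rfl
  have hhH : ∀ x ∈ 𝓗, x ∈ hodgeProj (img K ρ H) := fun x hx => hodgeProj_finite ρ H (h𝓗 x hx)
  refine ⟨img_one ρ H, ?_, semis H hfin, commt H hfin,
    fun γ => Pool.Agent.H76F.van_conj ρ hprime hfin γ, ?_, ?_,
    fun x hx => hodgeProj_zlie (img_mul ρ H) (hhH x hx), fun x hx => (h𝓗 x hx).1,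
    fun x hx => (proj_sim' hdet hkl (hsimI ⊤) (h𝓗 x hx) (h01 x hx).1 (h01 x hx).2).2, ?_⟩
  · rintro _ ⟨y, -, rfl⟩ d hd
    exact comm_span (hlinK y) d hd
  · intro γ
    obtain ⟨c, hc⟩ := hsimG γ
    refine ⟨c, ?_, hc⟩
    rintro rfl
    rw [zero_smul] at hc
    apply hne
    have h2 := img_inv (K := K) ρ γ
    have hss' : ((ρ γ⁻¹).1.map (algebraMap L K))ᵀ * ((ρ γ).1.map (algebraMap L K))ᵀ = 1 := by
      rw [← Matrix.transpose_mul, h2, Matrix.transpose_one]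
    calc J = (((ρ γ⁻¹).1.map (algebraMap L K))ᵀ * ((ρ γ).1.map (algebraMap L K))ᵀ) * J *
          (((ρ γ).1.map (algebraMap L K)) * ((ρ γ⁻¹).1.map (algebraMap L K))) := by
          rw [hss', h2, one_mul, mul_one]
      _ = ((ρ γ⁻¹).1.map (algebraMap L K))ᵀ * ((((ρ γ).1.map (algebraMap L K))ᵀ) * J *
          ((ρ γ).1.map (algebraMap L K))) * ((ρ γ⁻¹).1.map (algebraMap L K)) := by
          noncomm_ring
      _ = 0 := by rw [hc]; simp
  · intro γ d hd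
    exact comm_span (hlinK γ) d hd
  · refine (img_sub_inf ρ (H' := H') hprime).trans (zar_subset_zar ?_)
    rintro _ ⟨σ, hσ, rfl⟩
    exact hgen ⟨σ, hσ.2, rfl⟩

/-- **The monodromy group.** -/
theorem monodromy_tor [CharZero L] [CharZero K] [IsAlgClosed K] {ψ : Matrix ι ι ℚ}
    (hψ : ψᵀ = -ψ) (hψ0 : ψ.det ≠ 0) (D : Subalgebra ℚ (Matrix ι ι ℚ))
    (ρ : G →* Matrix.GeneralLinearGroup ι L)
    (lin : ∀ σ : G, ∀ d ∈ D, (ρ σ).1 * d.map (algebraMap ℚ L) =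
      d.map (algebraMap ℚ L) * (ρ σ).1)
    (sim : ∀ σ : G, ∃ c : L, (ρ σ).1ᵀ * ψ.map (algebraMap ℚ L) * (ρ σ).1 =
      c • ψ.map (algebraMap ℚ L))
    (cyc : ∃ σ : G, ∃ c : L, (ρ σ).1ᵀ * ψ.map (algebraMap ℚ L) * (ρ σ).1 =
      c • ψ.map (algebraMap ℚ L) ∧ ∀ n : ℕ, n ≠ 0 → c ^ n ≠ 1)
    (semis : ∀ H : Subgroup G, H.FiniteIndex → ∀ W : Submodule K (ι → K),
      (∀ s ∈ img K ρ H, ∀ w ∈ W, s *ᵥ w ∈ W) →
      ∃ W' : Submodule K (ι → K), (∀ s ∈ img K ρ H, ∀ w ∈ W', s *ᵥ w ∈ W') ∧ IsCompl W W')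
    (commt : ∀ H : Subgroup G, H.FiniteIndex → ∀ y : Matrix ι ι K,
      (∀ s ∈ img K ρ H, y * s = s * y) → y ∈ spanK K D)
    {m : ℕ} {e : Fin m → Matrix ι ι K} (hspl : IsSplitting D ψ id e)
    {𝓗 : Set (Matrix ι ι K)} (hnon : 𝓗.Nonempty) (h𝓗 : ∀ x ∈ 𝓗, x ∈ hodgeProj (img K ρ ⊤))
    (h01 : ∀ x ∈ 𝓗, x ≠ 0 ∧ x ≠ 1) {H' : Subgroup G} (hH' : H'.FiniteIndex)
    (hgen : img K ρ H' ⊆ zar (Submonoid.closure {m | ∃ h ∈ 𝓗, ∃ t : K,
      t ≠ 0 ∧ m = 1 + (t - 1) • h} : Set (Matrix ι ι K)))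
    (num : ∀ b, TorK K ρ (e b) (e b).rank)
    (H : Subgroup G) (hH : H.FiniteIndex) : monodromy K ρ H = similD K ψ D := by
  classical
  obtain ⟨hJ, hdet⟩ := gram_basic hψ hψ0 K
  have hspl4 := split4_of hspl
  have hsplR : H76RM.IsSplitting D ψ e :=
    ⟨hspl.mem, hspl.idem, hspl.adj, hspl.corner, hspl.orth, hspl.full⟩
  obtain ⟨h₀, hh₀⟩ := hnon
  have hι : Nonempty ι := by
    by_contra hemp
    rw [not_nonempty_iff] at hemp
    apply (h01 h₀ hh₀).1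
    ext i
    exact (hemp.false i).elim
  have hsimG : ∀ x : G, ∃ c : K, ((ρ x).1.map (algebraMap L K))ᵀ * ψ.map (algebraMap ℚ K) *
      (ρ x).1.map (algebraMap L K) = c • ψ.map (algebraMap ℚ K) := by
    intro x
    obtain ⟨c, hc⟩ := sim x
    exact ⟨_, sim_map hc⟩
  set J : Matrix ι ι K := ψ.map (algebraMap ℚ K) with hJdef
  obtain ⟨k, l, hkl⟩ : ∃ k l, J k l ≠ 0 := by
    by_contra hcon
    push Not at hcon
    have : J = 0 := by
      ext i j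
      exact hcon i j
    rw [this, Matrix.det_zero] at hdet
    exact not_isUnit_zero hdet
  have hsimT : ∀ s ∈ img K ρ ⊤, ∃ c : K, sᵀ * J * s = c • J := by
    rintro _ ⟨y, -, rfl⟩
    exact hsimG y
  refine monodromy_seed hψ hψ0 D ρ lin sim cyc semis commt hsplR ?_ H hH
  intro H₀ hfin hprime hsetup b
  have g := mk_sh hψ hψ0 D ρ lin sim semis commt h𝓗 h01 hH' hgen hfin hprime
  obtain ⟨P, Q, hPQ, hQP⟩ := idem_factor (hspl.idem b)
  have hn : 0 < (e b).rank := by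
    rw [Nat.pos_iff_ne_zero]
    intro hr
    apply hspl.ne_zero b
    have h2 : finrank K (LinearMap.range (e b).mulVecLin) = 0 := hr
    rw [Submodule.finrank_eq_zero, LinearMap.range_eq_bot] at h2
    apply Matrix.toLin'.injective
    rw [map_zero]
    exact h2
  have hnum : TorN (img K ρ H₀) J (rK K ρ) (e b) (e b).rank := by
    rcases num b with h4 | ⟨⟨N, hN2, hN1, hN0, h3⟩, h1, h2⟩
    · exact Or.inl h4
    · refine Or.inr ⟨⟨N, nil_of_zar ρ hdet hkl hsimT hN2 hN1 H₀, hN0, h3⟩, ?_, ?_⟩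
      · intro m hm5 hm4 hc
        obtain ⟨N, hN2, hN1, hN0, hr⟩ := h1 m hm5 hm4 hc
        exact ⟨N, nil_of_zar ρ hdet hkl hsimT hN2 hN1 H₀, hN0, hr⟩
      · intro k hk3 hko hc
        obtain ⟨N, hN2, hN1, hN0, hr⟩ := h2 k hk3 hko hc
        exact ⟨N, nil_of_zar ρ hdet hkl hsimT hN2 hN1 H₀, hN0, hr⟩
  refine seed_of_fu hJ hdet (g.hz h₀ hh₀) (g.hi h₀ hh₀) (g.hs h₀ hh₀) (hspl.idem b)
    (hspl.adj b) (hspl.ne_zero b) ?_ ?_
  · have h2 : h₀ ∈ H76U.preL J (img K ρ H₀) := by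
      refine ⟨⟨0, h₀, g.hz h₀ hh₀, by rw [zero_smul, add_zero]⟩, 1, ?_⟩
      rw [g.hs h₀ hh₀, one_smul]
    exact preL_ec hspl4 g h2
  · intro u hu
    exact fu_tor hspl4 rfl hJ hdet hPQ hQP g hn hnum hu

end Pool.Agent.H76V
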