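import Pool.Agent.Lib.H76T.TF2

/-!
# Ranks: self adjoint operators of symplectic spaces, commuting algebras
-/

set_option autoImplicit false
set_option linter.unusedSectionVars false
namespace Pool.Agent.H76V
open Module Matrix Pool.Agent.H53Toric

section
variable {κ : Type*} [Fintype κ] [DecidableEq κ] {K : Type*} [Field K] [CharZero K]

/-- A self adjoint operator of a symplectic space has even rank. -/
theorem even_rank {J : Matrix κ κ K} (hJ : Jᵀ = -J) (hJd : IsUnit J.det)
    {T : Module.End K (κ → K)} (hT : adjE J T = T) : Even (finrank K (LinearMap.range T)) := by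
  classical
  set r := finrank K (LinearMap.range T) with hr
  let w : Basis (Fin r) K (LinearMap.range T) := Module.finBasis K (LinearMap.range T)
  have hv : ∀ i, ∃ v, T v = (w i : κ → K) := fun i => (w i).2
  choose v hv using hv
  have hadj : ∀ x y, om J (T x) y = om J x (T y) := by
    intro x y
    have h1 := H49M.C0_spec hJd T x y
    rwa [hT] at h1
  have hanti := omega_antisymm (om_alt (J := J) hJ)
  let G : Matrix (Fin r) (Fin r) K := Matrix.of fun i j => om J (v i) (w j : κ → K)
  have hG : Gᵀ = -G := by
    ext i j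
    change om J (v j) (w i : κ → K) = -om J (v i) (w j : κ → K)
    rw [← hv i, ← hv j, ← hadj, hanti (T (v j)) (v i)]
  have hdet : G.det ≠ 0 := by
    intro h0
    obtain ⟨c, hc0, hc⟩ := Matrix.exists_mulVec_eq_zero_iff.2 h0
    apply hc0
    set z : κ → K := ∑ j, c j • v j with hz
    have hTz : T z = ((∑ j, c j • w j : LinearMap.range T) : κ → K) := by
      rw [hz, map_sum]
      simp only [map_smul, hv]
      simp
    have h1 : ∀ i, om J (v i) (T z) = 0 := by
      intro i
      have h2 := congrFun hc i
      rw [hTz]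
      simp only [Submodule.coe_sum, Submodule.coe_smul, map_sum, map_smul, smul_eq_mul]
      have h3 : ∑ j, om J (v i) (w j : κ → K) * c j = 0 := h2
      rw [← h3]
      exact Finset.sum_congr rfl fun j _ => mul_comm _ _
    have h2 : T z = 0 := by
      apply om_nd hJd
      intro x
      obtain ⟨a, h3⟩ : ∃ a : Fin r → K, T x = ∑ i, a i • T (v i) := by
        refine ⟨fun i => w.repr ⟨T x, LinearMap.mem_range_self T x⟩ i, ?_⟩
        have h4 := congrArg (fun u : LinearMap.range T => (u : κ → K))
          (w.sum_repr ⟨T x, LinearMap.mem_range_self T x⟩)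
        simp only [Submodule.coe_sum, Submodule.coe_smul] at h4
        simp only [hv]
        exact h4.symm
      clear_value z
      rw [← hadj, h3, map_sum, LinearMap.sum_apply]
      refine Finset.sum_eq_zero fun i _ => ?_
      rw [map_smul, LinearMap.smul_apply, hadj, h1, smul_zero]
    have h3 : (∑ j, c j • w j : LinearMap.range T) = 0 := by
      apply Subtype.ext
      rw [← hTz, h2]
      rfl
    have h4 := Fintype.linearIndependent_iff.1 w.linearIndependent c h3
    ext j
    exact h4 j
  have h1 := congrArg Matrix.det hG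
  rw [Matrix.det_transpose, Matrix.det_neg, Fintype.card_fin] at h1
  by_contra hodd
  rw [Nat.not_even_iff_odd] at hodd
  rw [hodd.neg_one_pow] at h1
  have h2 : (2 : K) * G.det = 0 := by linear_combination h1
  exact hdet ((mul_eq_zero.1 h2).resolve_left (by norm_num))

end

section
variable {K : Type*} [Field K] [CharZero K] [IsAlgClosed K] {V : Type*} [AddCommGroup V]
  [Module K V] [FiniteDimensional K V] [Nontrivial V]

/-- Two commuting algebras which generate all operators. -/
theorem two_rank' {A₁ A₂ : Subalgebra K (Module.End K V)}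
    (hcomm : ∀ X ∈ A₁, ∀ Y ∈ A₂, X * Y = Y * X) (hfull : A₁ ⊔ A₂ = ⊤) :
    ∃ a d : ℕ, finrank K A₁ = a * a ∧ finrank K A₂ = d * d ∧ finrank K V = a * d ∧
      (∀ N ∈ A₂, ∀ X ∈ A₂, N * X * N = N → a ∣ finrank K (LinearMap.range N)) ∧
      (∀ N ∈ A₁, ∀ X ∈ A₁, N * X * N = N → d ∣ finrank K (LinearMap.range N)) := by
  obtain ⟨a, M, ⟨θ⟩, ha, hV⟩ := H49M.B8_two hcomm hfull
  have hd : finrank K A₂ = finrank K M * finrank K M := by
    have := θ.toLinearEquiv.finrank_eq
    rw [Module.finrank_linearMap] at this
    exact this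
  have hV0 : 0 < finrank K V := finrank_pos
  have ha0 : 0 < a := by
    rcases Nat.eq_zero_or_pos a with h | h
    · rw [h, zero_mul] at hV; omega
    · exact h
  have hM0 : 0 < finrank K M := by
    rcases Nat.eq_zero_or_pos (finrank K M) with h | h
    · rw [h, mul_zero] at hV; omega
    · exact h
  refine ⟨a, finrank K M, ha, hd, hV, ?_, ?_⟩
  · obtain ⟨a', d', h1, h2, h3⟩ := H76T.two_rank hcomm hfull
    have h4 : d' = finrank K M := by
      rw [hd] at h1
      exact (Nat.mul_self_inj.1 h1).symm
    have h5 : a' = a := by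
      rw [hV, h4] at h2
      exact (Nat.eq_of_mul_eq_mul_right hM0 h2).symm
    rw [← h5]
    exact h3
  · obtain ⟨a', d', h1, h2, h3⟩ := H76T.two_rank (A₁ := A₂) (A₂ := A₁)
      (fun X hX Y hY => (hcomm Y hY X hX).symm) (by rw [sup_comm]; exact hfull)
    have h4 : d' = a := by
      rw [ha] at h1
      exact (Nat.mul_self_inj.1 h1).symm
    have h5 : a' = finrank K M := by
      rw [hV, h4, mul_comm a'] at h2
      exact (Nat.eq_of_mul_eq_mul_left ha0 h2).symm
    rw [← h5]
    exact h3

end

end Pool.Agent.H76V
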