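import Pool.Agent.Lib.H76V.VA2

/-!
# The case of a factor of dimension two
-/

set_option autoImplicit false
set_option linter.unusedSectionVars false
namespace Pool.Agent.H76V
open Module Matrix Pool.Agent.H53Toric
open Pool.Agent.H76T (IsIdeal Fam tr_skew scalar_skew adjoin_comm)

section
variable {K : Type*} [Field K] {V : Type*} [AddCommGroup V] [Module K V]

theorem nm (A B : Module.End K V) : -A * B = -(A * B) := neg_mul A B
theorem mn (A B : Module.End K V) : A * -B = -(A * B) := mul_neg A B

variable [FiniteDimensional K V]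

theorem rank_double {u N p : Module.End K V} (hu : LinearMap.ker u = LinearMap.range p)
    (hup : LinearMap.range u = LinearMap.range p) (hp : p * p = p) (hNu : N * u = u * N)
    (hNp : N * p = p * N) :
    finrank K (LinearMap.range N) = 2 * finrank K (LinearMap.range (u * N)) := by
  have h1 : LinearMap.range (u * N) = (LinearMap.range N).map u := by
    rw [← LinearMap.range_comp]; rfl
  have h2 : LinearMap.range (u * N) = LinearMap.range (p * N) := by
    rw [← hNu, ← hNp]
    have e1 : LinearMap.range (N * u) = (LinearMap.range u).map N := by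
      rw [← LinearMap.range_comp]; rfl
    have e2 : LinearMap.range (N * p) = (LinearMap.range p).map N := by
      rw [← LinearMap.range_comp]; rfl
    rw [e1, e2, hup]
  have h3 : LinearMap.range N ⊓ LinearMap.ker u = LinearMap.range (p * N) := by
    rw [hu]
    apply le_antisymm
    · rintro _ ⟨⟨w, rfl⟩, ⟨z, hz⟩⟩
      refine ⟨w, ?_⟩
      change p (N w) = N w
      rw [← hz]
      exact congrArg (fun f : Module.End K V => f z) hp
    · rintro _ ⟨w, rfl⟩
      refine ⟨⟨p w, ?_⟩, ⟨N w, rfl⟩⟩
      exact congrArg (fun f : Module.End K V => f w) hNp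
  let g : LinearMap.range N →ₗ[K] V := u.domRestrict (LinearMap.range N)
  have h4 : LinearMap.range g = (LinearMap.range N).map u := by
    ext v
    constructor
    · rintro ⟨⟨w, hw⟩, rfl⟩
      exact ⟨w, hw, rfl⟩
    · rintro ⟨w, hw, rfl⟩
      exact ⟨⟨w, hw⟩, rfl⟩
  have h5 : (LinearMap.ker g).map (LinearMap.range N).subtype =
      LinearMap.range N ⊓ LinearMap.ker u := by
    ext v
    constructor
    · rintro ⟨⟨w, hw⟩, hwk, rfl⟩
      exact ⟨hw, hwk⟩
    · rintro ⟨hw, hwk⟩
      exact ⟨⟨v, hw⟩, hwk, rfl⟩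
  have h6 := LinearMap.finrank_range_add_finrank_ker g
  have h7 : finrank K (LinearMap.ker g) = finrank K (LinearMap.range (p * N)) := by
    rw [← h3, ← h5]
    exact (Submodule.finrank_map_subtype_eq _ _).symm
  rw [h7, h4, ← h1, ← h2] at h6
  omega

end

section
variable {κ : Type*} [Fintype κ] [DecidableEq κ] {K : Type*} [Field K]
variable [CharZero K] {L : Submodule K (Module.End K (κ → K))} {J : Matrix κ κ K}
variable [IsAlgClosed K] [Nonempty κ] {m : ℕ} {I : Fin m → Submodule K (Module.End K (κ → K))}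

/-- Every minimal ideal contains an element of square zero. -/
theorem Cmp.nil (h : Cmp L J) (hF : Fam L I) (i : Fin m) : ∃ u ∈ I i, u ≠ 0 ∧ u * u = 0 := by
  obtain ⟨y, hy, hy2⟩ := h.inv_mem hF i
  have hyL := (hF.ideal i).1 hy
  obtain ⟨X, hX, hXy⟩ : ∃ X ∈ L, y * X ≠ X * y := by
    by_contra hcon
    push Not at hcon
    obtain ⟨c, hc⟩ := h.gen y (fun z hz _ => hcon z hz)
    have h1 : y = 0 := by
      rw [hc]
      apply scalar_skew h.Jt h.Jd
      rw [← hc]
      exact h.skew y hyL
    rw [h1, mul_zero] at hy2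
    exact zero_ne_one hy2
  set Z := y * X - X * y with hZ
  have hZ0 : Z ≠ 0 := sub_ne_zero.2 hXy
  have hZI : Z ∈ I i := by
    have h1 := (hF.ideal i).2 X hX y hy
    have h2 : Z = -(X * y - y * X) := by rw [hZ]; abel
    rw [h2]
    exact (I i).neg_mem h1
  have hyZ : y * Z = -(Z * y) := by
    rw [hZ, mul_sub, sub_mul, ← mul_assoc, hy2, one_mul, mul_assoc X y y, hy2, mul_one]
    noncomm_ring
  have hW : y * Z - Z * y ∈ I i := (hF.ideal i).2 y hyL Z hZI
  -- the two components
  have key : ∀ ε : K, ε * ε = 1 → ((2 : K) • Z + ε • (y * Z - Z * y)) *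
      ((2 : K) • Z + ε • (y * Z - Z * y)) = 0 := by
    intro ε hε
    have e1 : y * Z - Z * y = (2 : K) • (y * Z) := by
      have : Z * y = -(y * Z) := by rw [hyZ, neg_neg]
      rw [this, two_smul]; abel
    have hZy : Z * y = -(y * Z) := by rw [hyZ, neg_neg]
    have e2 : y * Z * (y * Z) = -(Z * Z) := by
      calc y * Z * (y * Z) = y * (Z * y) * Z := by noncomm_ring
        _ = -(y * y * Z * Z) := by rw [hZy, mn, nm]; noncomm_ring
        _ = _ := by rw [hy2, one_mul]
    have e3 : Z * (y * Z) = -(y * Z * Z) := by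
      rw [← mul_assoc, hZy, nm]
    rw [e1, smul_smul, mul_add, add_mul, add_mul]
    simp only [smul_mul_assoc, mul_smul_comm, smul_smul]
    rw [e2, e3]
    have e4 : ε * 2 * (ε * 2) = 4 := by linear_combination 4 * hε
    rw [e4]
    module
  by_cases h1 : (2 : K) • Z + (1 : K) • (y * Z - Z * y) = 0
  · refine ⟨(2 : K) • Z + (-1 : K) • (y * Z - Z * y), (I i).add_mem ((I i).smul_mem _ hZI)
      ((I i).smul_mem _ hW), ?_, key (-1) (by ring)⟩
    intro h2
    apply hZ0
    have h3 : (4 : K) • Z = 0 := by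
      calc (4 : K) • Z = ((2 : K) • Z + (1 : K) • (y * Z - Z * y)) +
            ((2 : K) • Z + (-1 : K) • (y * Z - Z * y)) := by module
        _ = 0 := by rw [h1, h2, add_zero]
    exact (smul_eq_zero.1 h3).resolve_left (by norm_num)
  · exact ⟨_, (I i).add_mem ((I i).smul_mem _ hZI) ((I i).smul_mem _ hW), h1, key 1 (by ring)⟩

/-- If the other factors have dimension two, ranks are divisible by four. -/
theorem Cmp.four (h : Cmp L J) (hF : Fam L I) {i j : Fin m} (hij : i ≠ j) {a : ℕ}
    (ha : finrank K (calg I j) = a * a) (ha2 : a = 2) {N : Module.End K (κ → K)}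
    (hN : N ∈ I j) : 4 ∣ finrank K (LinearMap.range N) := by
  obtain ⟨a', d, ha', -, hV, -, -, -, hdvd⟩ := h.dims hF hij
  have haa : a' = 2 := by
    rw [ha', ha2] at ha
    exact Nat.mul_self_inj.1 ha
  rw [haa] at hV
  obtain ⟨u, hu, hu0, hu2⟩ := h.nil hF i
  obtain ⟨X, hX, huX⟩ := h.partner hF hu hu2
  set p := u * X with hp
  have hpp : p * p = p := by rw [hp, ← mul_assoc, huX]
  have hrange : LinearMap.range u = LinearMap.range p := by
    apply le_antisymm
    · rintro _ ⟨v, rfl⟩
      exact ⟨u v, congrArg (fun f : Module.End K (κ → K) => f v) huX⟩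
    · rintro _ ⟨v, rfl⟩
      exact ⟨X v, rfl⟩
  have hle : LinearMap.range u ≤ LinearMap.ker u := by
    rintro _ ⟨v, rfl⟩
    exact congrArg (fun f : Module.End K (κ → K) => f v) hu2
  have hrn := LinearMap.finrank_range_add_finrank_ker u
  have hle' := Submodule.finrank_mono hle
  have hur : 1 ≤ finrank K (LinearMap.range u) := by
    rw [Nat.one_le_iff_ne_zero]
    intro h0
    rw [Submodule.finrank_eq_zero, LinearMap.range_eq_bot] at h0
    exact hu0 h0
  have hd : d ∣ finrank K (LinearMap.range u) :=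
    hdvd u (mem_calg hij hu) X (mem_calg hij hX) huX
  have hd' := Nat.le_of_dvd hur hd
  have hker : LinearMap.ker u = LinearMap.range p := by
    rw [← hrange]
    exact (Submodule.eq_of_le_of_finrank_eq hle (by omega)).symm
  have hNu : N * u = u * N := hF.comm j i hij.symm N hN u hu
  have hNX : N * X = X * N := hF.comm j i hij.symm N hN X hX
  have hNp : N * p = p * N := by
    rw [hp, ← mul_assoc, hNu, mul_assoc, hNX, mul_assoc]
  rw [rank_double hker hrange hpp hNu hNp]
  have hev : Even (finrank K (LinearMap.range (u * N))) := by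
    apply even_rank h.Jt h.Jd
    rw [adjE_mul h.Jd, h.skew N ((hF.ideal j).1 hN), h.skew u ((hF.ideal i).1 hu)]
    exact (neg_mul_neg N u).trans hNu
  obtain ⟨t, ht⟩ := hev
  exact ⟨t, by omega⟩

end

end Pool.Agent.H76V
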