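import Pool.Agent.Lib.H76V.VA3

/-!
# Elements acting by scalars on the range of a nilpotent element
-/

set_option autoImplicit false
set_option linter.unusedSectionVars false
namespace Pool.Agent.H76V
open Module Matrix Pool.Agent.H53Toric
open Pool.Agent.H76T (IsIdeal Fam tr_skew scalar_skew adjoin_comm)

variable {κ : Type*} [Fintype κ] [DecidableEq κ] {K : Type*} [Field K]
variable [CharZero K] {L : Submodule K (Module.End K (κ → K))} {J : Matrix κ κ K}
variable [IsAlgClosed K] [Nonempty κ] {m : ℕ} {I : Fin m → Submodule K (Module.End K (κ → K))}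

/-- The operator `X ↦ x X x'`. -/
def cj (x x' : Module.End K (κ → K)) : Module.End K (κ → K) →ₗ[K] Module.End K (κ → K) where
  toFun X := x * X * x'
  map_add' := by
    intro A B
    rw [mul_add, add_mul]
  map_smul' := by
    intro c A
    rw [mul_smul_comm, smul_mul_assoc]; rfl

theorem cj_apply (x x' X : Module.End K (κ → K)) : cj x x' X = x * X * x' := rfl

theorem Fam.move (hF : Fam L I) (hirr : Irr L)
    (htr : ∀ X ∈ L, LinearMap.trace K (κ → K) X = 0) {x x' : Module.End K (κ → K)}
    (h1 : x * x' = 1) (h2 : x' * x = 1) (hL : ∀ X ∈ L, x * X * x' ∈ L)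
    (hL' : ∀ X ∈ L, x' * X * x ∈ L) (i : Fin m) : ∃ k, (I i).comap (cj x' x) = I k := by
  have hxx : ∀ X, x' * (x * X * x') * x = X := by
    intro X
    calc x' * (x * X * x') * x = (x' * x) * X * (x' * x) := by noncomm_ring
      _ = X := by rw [h2, one_mul, mul_one]
  have hxx' : ∀ X, x * (x' * X * x) * x' = X := by
    intro X
    calc x * (x' * X * x) * x' = (x * x') * X * (x * x') := by noncomm_ring
      _ = X := by rw [h1, one_mul, mul_one]
  have hbr : ∀ Z Y, x' * (Z * Y - Y * Z) * x =
      (x' * Z * x) * (x' * Y * x) - (x' * Y * x) * (x' * Z * x) := by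
    have e : ∀ Z Y, (x' * Z * x) * (x' * Y * x) = x' * (Z * Y) * x := by
      intro Z Y
      calc (x' * Z * x) * (x' * Y * x) = x' * Z * (x * x') * Y * x := by noncomm_ring
        _ = _ := by rw [h1, mul_one]; noncomm_ring
    intro Z Y
    rw [e, e, mul_sub, sub_mul]
  have hbr' : ∀ Z Y, x * (Z * Y - Y * Z) * x' =
      (x * Z * x') * (x * Y * x') - (x * Y * x') * (x * Z * x') := by
    have e : ∀ Z Y, (x * Z * x') * (x * Y * x') = x * (Z * Y) * x' := by
      intro Z Y
      calc (x * Z * x') * (x * Y * x') = x * Z * (x' * x) * Y * x' := by noncomm_ring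
        _ = _ := by rw [h2, mul_one]; noncomm_ring
    intro Z Y
    rw [e, e, mul_sub, sub_mul]
  apply hF.of_min hirr htr
  · refine ⟨fun X hX => ?_, fun Z hZ Y hY => ?_⟩
    · have h3 := hL _ ((hF.ideal i).1 hX)
      rw [cj_apply, hxx'] at h3
      exact h3
    · change x' * (Z * Y - Y * Z) * x ∈ I i
      rw [hbr]
      exact (hF.ideal i).2 _ (hL' Z hZ) _ hY
  · intro h0
    apply hF.ne_bot i
    rw [eq_bot_iff]
    intro X hX
    have h3 : x * X * x' ∈ (I i).comap (cj x' x) := by
      change x' * (x * X * x') * x ∈ I i
      rw [hxx]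
      exact hX
    rw [h0, Submodule.mem_bot] at h3
    rw [Submodule.mem_bot, ← hxx X, h3, mul_zero, zero_mul]
  · intro N hN hle
    have hid : IsIdeal L (N.comap (cj x x')) := by
      refine ⟨fun X hX => ?_, fun Z hZ Y hY => ?_⟩
      · have h3 := hL' _ (hN.1 hX)
        rw [cj_apply, hxx] at h3
        exact h3
      · change x * (Z * Y - Y * Z) * x' ∈ N
        rw [hbr']
        exact hN.2 _ (hL Z hZ) _ hY
    have hle2 : N.comap (cj x x') ≤ I i := by
      intro X hX
      have h3 := hle hX
      change x' * (x * X * x') * x ∈ I i at h3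
      rwa [hxx] at h3
    rcases hF.min i _ hid hle2 with h3 | h3
    · left
      rw [eq_bot_iff]
      intro X hX
      have h4 : x' * X * x ∈ N.comap (cj x x') := by
        change x * (x' * X * x) * x' ∈ N
        rw [hxx']
        exact hX
      rw [h3, Submodule.mem_bot] at h4
      rw [Submodule.mem_bot, ← hxx' X, h4, mul_zero, zero_mul]
    · right
      apply le_antisymm hle
      intro X hX
      have h4 : x' * X * x ∈ N.comap (cj x x') := by
        rw [h3]
        exact hX
      change x * (x' * X * x) * x' ∈ N at h4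
      rwa [hxx'] at h4

/-- An element which normalises `L` and acts by scalars on `N` commutes with the other ideals. -/
theorem Cmp.commute (h : Cmp L J) (hF : Fam L I) {j : Fin m} {N : Module.End K (κ → K)}
    (hN : N ∈ I j) (hN0 : N ≠ 0) {x x' : Module.End K (κ → K)}
    (h1 : x * x' = 1) (h2 : x' * x = 1) (hL : ∀ X ∈ L, x * X * x' ∈ L)
    (hL' : ∀ X ∈ L, x' * X * x ∈ L) {c c' : K} (hc : c ≠ 0) (hc' : c' ≠ 0)
    (hxN : x * N = c • N) (hNx : N * x = c' • N) : ∀ z ∈ calg I j, x * z = z * x := by
  have hx'N : x' * N = c⁻¹ • N := by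
    have h3 : x' * (x * N) = c • (x' * N) := by rw [hxN, mul_smul_comm]
    rw [← mul_assoc, h2, one_mul] at h3
    rw [h3, smul_smul, inv_mul_cancel₀ hc, one_smul, ← h3]
  have hconjN : x' * N * x = (c⁻¹ * c') • N := by
    rw [hx'N, smul_mul_assoc, hNx, smul_smul]
  -- conjugation preserves the complement
  have hpres : ∀ z ∈ calg I j, x * z * x' ∈ calg I j := by
    have hgen : ∀ i, i ≠ j → ∀ X ∈ I i, x * X * x' ∈ calg I j := by
      intro i hij X hX
      obtain ⟨k, hk⟩ := Fam.move hF h.irr h.tr h1 h2 hL hL' i
      have hX' : x * X * x' ∈ I k := by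
        rw [← hk]
        change x' * (x * X * x') * x ∈ I i
        have : x' * (x * X * x') * x = X := by
          calc x' * (x * X * x') * x = (x' * x) * X * (x' * x) := by noncomm_ring
            _ = X := by rw [h2, one_mul, mul_one]
        rw [this]
        exact hX
      apply mem_calg _ hX'
      rintro rfl
      have h3 : N ∈ (I i).comap (cj x' x) := by rw [hk]; exact hN
      change x' * N * x ∈ I i at h3
      rw [hconjN] at h3
      have h4 : (c⁻¹ * c') • N = 0 := Fam.disj hF hij h3 ((I k).smul_mem _ hN)
      exact hN0 ((smul_eq_zero.1 h4).resolve_left (mul_ne_zero (inv_ne_zero hc) hc'))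
    let S : Subalgebra K (Module.End K (κ → K)) :=
      { carrier := {z | x * z * x' ∈ calg I j}
        mul_mem' := by
          intro a b ha hb
          have e : x * (a * b) * x' = (x * a * x') * (x * b * x') := by
            calc x * (a * b) * x' = x * a * 1 * b * x' := by noncomm_ring
              _ = _ := by rw [← h2]; noncomm_ring
          change x * (a * b) * x' ∈ calg I j
          rw [e]
          exact Subalgebra.mul_mem _ ha hb
        add_mem' := by
          intro a b ha hb
          change x * (a + b) * x' ∈ calg I j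
          rw [mul_add, add_mul]
          exact Subalgebra.add_mem _ ha hb
        algebraMap_mem' := by
          intro r
          change x * (algebraMap K _ r) * x' ∈ calg I j
          rw [← Algebra.commutes r x, mul_assoc, h1, mul_one]
          exact Subalgebra.algebraMap_mem _ r }
    have hS : calg I j ≤ S := by
      refine iSup_le fun i => Algebra.adjoin_le fun X hX => ?_
      exact hgen i.1 i.2 X hX
    exact fun z hz => hS hz
  have hcN : ∀ z ∈ calg I j, z * N = N * z := fun z hz =>
    Fam.calg_comm hF j z hz N (mem_alg hN)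
  -- elements of the complement killing `N` vanish
  have hzero : ∀ z ∈ calg I j, z * N = 0 → z = 0 := by
    intro z hz hzN
    let W : Submodule K (κ → K) :=
      { carrier := {v | ∀ w ∈ calg I j, z (w v) = 0}
        zero_mem' := fun w _ => by rw [map_zero, map_zero]
        add_mem' := fun {a b} ha hb w hw => by rw [map_add, map_add, ha w hw, hb w hw, add_zero]
        smul_mem' := fun t a ha w hw => by rw [map_smul, map_smul, ha w hw, smul_zero] }
    have hW : W = ⊥ ∨ W = ⊤ := by
      apply h.irr
      intro X hX
      rw [← hF.sup] at hX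
      induction hX using Submodule.iSup_induction' with
      | mem i X hX =>
        intro v hv w hw
        by_cases hij : i = j
        · have h3 : z * (w * X) = X * (z * w) := by
            rw [hij] at hX
            rw [Fam.calg_comm hF j w hw X (mem_alg hX), ← mul_assoc,
              Fam.calg_comm hF j z hz X (mem_alg hX), mul_assoc]
          have h4 := congrArg (fun f : Module.End K (κ → K) => f v) h3
          change z (w (X v)) = X (z (w v)) at h4
          rw [h4, hv w hw, map_zero]
        · exact hv (w * X) (Subalgebra.mul_mem _ hw (mem_calg hij hX))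
      | zero => intro v _ w _; rw [LinearMap.zero_apply, map_zero, map_zero]
      | add a b _ _ ha hb =>
        intro v hv
        exact W.add_mem (ha v hv) (hb v hv)
    obtain ⟨v, hv⟩ : ∃ v, N v ≠ 0 := by
      by_contra hcon
      push Not at hcon
      apply hN0
      apply LinearMap.ext
      intro v
      rw [hcon v]; rfl
    have hNv : N v ∈ W := by
      intro w hw
      have h3 : z * (w * N) = 0 := by
        rw [hcN w hw, ← mul_assoc, hzN, zero_mul]
      exact congrArg (fun f : Module.End K (κ → K) => f v) h3
    rcases hW with hW | hW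
    · rw [hW, Submodule.mem_bot] at hNv
      exact absurd hNv hv
    · apply LinearMap.ext
      intro u
      have h3 : u ∈ W := by rw [hW]; trivial
      exact h3 1 (Subalgebra.one_mem _)
  intro z hz
  have h3 : (x * z * x' - z) * N = 0 := by
    rw [sub_mul, mul_assoc, hx'N, mul_smul_comm, mul_assoc, hcN z hz, ← mul_assoc, hxN,
      smul_mul_assoc, smul_smul, inv_mul_cancel₀ hc, one_smul, sub_self]
  have h4 := hzero _ (Subalgebra.sub_mem _ (hpres z hz) hz) h3
  have h5 : x * z * x' = z := sub_eq_zero.1 h4
  calc x * z = x * z * (x' * x) := by rw [h2, mul_one]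
    _ = (x * z * x') * x := by noncomm_ring
    _ = z * x := by rw [h5]

/-- Idempotents commuting with the complement. -/
theorem Cmp.idem_dvd (h : Cmp L J) (hF : Fam L I) {j : Fin m} {a : ℕ}
    (ha : finrank K (calg I j) = a * a) {p : Module.End K (κ → K)} (hp : p * p = p)
    (hc : ∀ z ∈ calg I j, p * z = z * p) : a ∣ finrank K (LinearMap.range p) := by
  let A₂ : Subalgebra K (Module.End K (κ → K)) :=
    Subalgebra.centralizer K (calg I j : Set (Module.End K (κ → K)))
  have hcomm : ∀ X ∈ calg I j, ∀ Y ∈ A₂, X * Y = Y * X := by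
    intro X hX Y hY
    exact (Subalgebra.mem_centralizer_iff K).1 hY X hX
  have hle : alg I j ≤ A₂ := by
    intro Y hY
    rw [Subalgebra.mem_centralizer_iff]
    exact fun X hX => Fam.calg_comm hF j X hX Y hY
  have hfull : calg I j ⊔ A₂ = ⊤ := by
    rw [eq_top_iff, ← Fam.calg_top hF h.irr j]
    exact sup_le_sup_left hle _
  obtain ⟨a', d', ha', -, -, h1, -⟩ := two_rank' hcomm hfull
  have haa : a' = a := by
    rw [ha] at ha'
    exact (Nat.mul_self_inj.1 ha').symm
  rw [← haa]
  refine h1 p ?_ 1 (Subalgebra.one_mem _) (by rw [mul_one, hp])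
  rw [Subalgebra.mem_centralizer_iff]
  exact fun z hz => (hc z hz).symm

end Pool.Agent.H76V
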