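import Pool.Agent.Lib.H76V.VA5

/-!
# The component theorem for a component of the Lie algebra of a closure, many cocharacters
-/

set_option autoImplicit false
set_option linter.unusedSectionVars false
namespace Pool.Agent.H76V
open Module Matrix Polynomial Pool.Agent.H53Toric Pool.Agent.H76U Pool.Agent.H76F
open Pool.Agent.H76RM (zar_commute zlie_commute van)
open Pool.Agent.H76T (Lc mem_Lc)

variable {ι : Type*} [Fintype ι] [DecidableEq ι] {K : Type*} [Field K]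

/-- The closure of `S`, a group acting by conjugation, and a set of idempotents which
generate. -/
structure SH (S : Set (Matrix ι ι K)) (J : Matrix ι ι K) (DD : Submodule K (Matrix ι ι K))
    {Γ : Type*} [Group Γ] (r : Γ →* Matrix ι ι K) (𝓗 : Set (Matrix ι ι K)) : Prop where
  one : (1 : Matrix ι ι K) ∈ S
  SD : ∀ s ∈ S, ∀ d ∈ DD, s * d = d * s
  semis : ∀ W : Submodule K (ι → K), (∀ s ∈ S, ∀ w ∈ W, s *ᵥ w ∈ W) →
      ∃ W' : Submodule K (ι → K), (∀ s ∈ S, ∀ w ∈ W', s *ᵥ w ∈ W') ∧ IsCompl W W'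
  commt : ∀ y : Matrix ι ι K, (∀ s ∈ S, y * s = s * y) → y ∈ DD
  cnj : ∀ γ, ∀ f ∈ van S, ∀ s ∈ S, ev (r γ * s * r γ⁻¹) f = 0
  sim : ∀ γ, ∃ c : K, c ≠ 0 ∧ (r γ)ᵀ * J * r γ = c • J
  rD : ∀ γ, ∀ d ∈ DD, r γ * d = d * r γ
  hz : ∀ x ∈ 𝓗, x ∈ zlie S
  hi : ∀ x ∈ 𝓗, x * x = x
  hs : ∀ x ∈ 𝓗, xᵀ * J + J * x = J
  gen : S ⊆ zar (Submonoid.closure {m | ∃ h ∈ 𝓗, ∃ t : K, t ≠ 0 ∧
    m = 1 + (t - 1) • h} : Set (Matrix ι ι K))

namespace SH

variable [CharZero K] {S : Set (Matrix ι ι K)} {J : Matrix ι ι K}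
    {DD : Submodule K (Matrix ι ι K)}
    {Γ : Type*} [Group Γ] {r : Γ →* Matrix ι ι K} {𝓗 : Set (Matrix ι ι K)}
    (g : SH S J DD r 𝓗)
include g

theorem rr (γ : Γ) : r γ * r γ⁻¹ = 1 := by rw [← map_mul, mul_inv_cancel, map_one]

theorem rr' (γ : Γ) : r γ⁻¹ * r γ = 1 := by rw [← map_mul, inv_mul_cancel, map_one]

theorem zlie_r (γ : Γ) {A : Matrix ι ι K} (hA : A ∈ zlie S) : r γ * A * r γ⁻¹ ∈ zlie S := by
  refine zlie_conj' (g.rr γ) (g.cnj γ) ?_ hA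
  have := g.cnj γ⁻¹
  rw [inv_inv] at this
  exact this

theorem preL_r (γ : Γ) {A : Matrix ι ι K} {d : K} (hA : ∃ c : K, ∃ C ∈ zlie S, A = C + c • 1)
    (hd : Aᵀ * J + J * A = d • J) :
    (∃ c : K, ∃ C ∈ zlie S, r γ * A * r γ⁻¹ = C + c • 1) ∧
      (r γ * A * r γ⁻¹)ᵀ * J + J * (r γ * A * r γ⁻¹) = d • J := by
  obtain ⟨c, C, hC, rfl⟩ := hA
  obtain ⟨s, hs0, hs⟩ := g.sim γ
  refine ⟨⟨c, r γ * C * r γ⁻¹, g.zlie_r γ hC, ?_⟩, H76F.conj_sim (g.rr γ) hs hd⟩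
  rw [mul_add, add_mul, mul_smul_comm, mul_one, smul_mul_assoc, g.rr γ]

end SH

section
variable [CharZero K] {B : Type*} [Fintype B] [DecidableEq B]
    {J : Matrix ι ι K} {DD : Submodule K (Matrix ι ι K)}
    {bar : B → B} {e : B → Matrix ι ι K} (h : Split4 J DD bar e) {b : B} (hb : bar b = b)
    (hJ : Jᵀ = -J) (hdet : IsUnit J.det)
    {n : ℕ} {P : Matrix ι (Fin n) K} {Q : Matrix (Fin n) ι K}
    (hPQ : e b = P * Q) (hQP : Q * P = 1)
    {S : Set (Matrix ι ι K)}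
    {Γ : Type*} [Group Γ] {r : Γ →* Matrix ι ι K} {𝓗 : Set (Matrix ι ι K)}
    (g : SH S J DD r 𝓗)

include h g in
theorem preL_ec {A : Matrix ι ι K} (hA : A ∈ preL J S) : A * e b = e b * A :=
  preL_commute g.one (fun s hs => g.SD s hs _ (h.mem b)) hA

include h hb hJ hdet hPQ hQP g in
theorem cmp_comp [IsAlgClosed K] (hn : 0 < n) : Cmp (Lc J S P Q) (Pᵀ * J * P) := by
  have hpJ : (e b)ᵀ * J = J * e b := by
    have := h.adj b
    rwa [hb] at this
  have hdb := det_cmp hPQ hQP hpJ hdet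
  have hJb : (Pᵀ * J * P)ᵀ = -(Pᵀ * J * P) := by
    rw [Matrix.transpose_mul, Matrix.transpose_mul, Matrix.transpose_transpose, hJ,
      Matrix.neg_mul, Matrix.mul_neg, Matrix.mul_assoc]
  have hamb : Amb (Lb J S P Q) (adjE (Pᵀ * J * P)) :=
    amb_comp h hb hJ hdet hPQ hQP g.one g.SD g.semis g.commt g.hz g.hi g.hs g.gen
  have : Nonempty (Fin n) := ⟨⟨0, hn⟩⟩
  have hsk : ∀ X Y : Module.End K (Fin n → K), adjE (Pᵀ * J * P) X = -X →
      adjE (Pᵀ * J * P) Y = -Y → adjE (Pᵀ * J * P) (X * Y - Y * X) = -(X * Y - Y * X) := by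
    intro X Y h1 h2
    rw [map_sub, adjE_mul hdb, adjE_mul hdb, h1, h2]
    have e1 : (-Y) * (-X) = Y * X := neg_mul_neg Y X
    have e2 : (-X) * (-Y) = X * Y := neg_mul_neg X Y
    rw [neg_sub]
    exact congrArg₂ (· - ·) e1 e2
  refine ⟨?_, ?_, hJb, hdb, fun X hX => hX.2, ?_⟩
  · intro X hX Y hY
    exact ⟨hamb.lie X hX.1 Y hY.1, hsk X Y hX.2 hY.2⟩
  · intro W hW
    exact hamb.irr W (fun y hy w hw => hW y ⟨hy.1, hy.2.2⟩ w hw)
  · intro T hT
    obtain ⟨c, hc⟩ := Module.End.exists_eigenvalue T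
    refine ⟨c, ?_⟩
    have h1 : Module.End.eigenspace T c = ⊤ := by
      rcases hamb.irr (Module.End.eigenspace T c) (fun y hy w hw => by
        rw [Module.End.mem_eigenspace_iff] at hw ⊢
        have h2 := hT y ⟨hy.1, hy.2.2⟩ hy.2.1
        have h3 := congrArg (fun f : Module.End K (Fin n → K) => f w) h2
        change T (y w) = y (T w) at h3
        rw [h3, hw, map_smul]) with h2 | h2
      · exact absurd h2 hc
      · exact h2
    apply LinearMap.ext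
    intro w
    have h2 : w ∈ Module.End.eigenspace T c := by rw [h1]; trivial
    rw [Module.End.mem_eigenspace_iff] at h2
    exact h2

include h hb hdet hPQ hQP g in
/-- compression of a matrix of square zero -/
theorem nil_mem {N : Matrix ι ι K} (hN : H76T.Nil S J N) :
    phi (cmp P Q N) ∈ Lc J S P Q ∧ phi (cmp P Q N) * phi (cmp P Q N) = 0 ∧
      finrank K (LinearMap.range (phi (cmp P Q N))) = (N * e b).rank ∧
      (N * e b ≠ 0 → phi (cmp P Q N) ≠ 0) := by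
  have hpJ : (e b)ᵀ * J = J * e b := by
    have := h.adj b
    rwa [hb] at this
  have hdb := det_cmp hPQ hQP hpJ hdet
  obtain ⟨hNz, hNs, hN2⟩ := hN
  have hNL : N ∈ preL J S :=
    ⟨⟨0, N, hNz, by rw [zero_smul, add_zero]⟩, 0, by rw [hNs, zero_smul]⟩
  have hNe := preL_ec (b := b) h g hNL
  refine ⟨⟨mem_Lb.2 ⟨N, hNL, rfl⟩, ?_⟩, ?_, ?_, ?_⟩
  · rw [skew_iff hdb, cmp_sim hPQ hQP hpJ hNe, hNs, Matrix.mul_zero, Matrix.zero_mul]
  · rw [← map_mul, ← cmp_mul hPQ hQP hNe, hN2, map_zero, map_zero]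
  · change (cmp P Q N).rank = _
    exact rank_cmp hPQ hQP hNe
  · intro hne h0
    apply hne
    have h1 : cmp P Q N = 0 := by
      apply (phi (ι := Fin n) (K := K)).injective
      rw [h0, map_zero]
    have h2 : N * e b = (P * cmp P Q N) * Q := by
      rw [P_cmp hPQ hQP hNe, Matrix.mul_assoc, ← hPQ]
    rw [h2, h1, Matrix.mul_zero, Matrix.zero_mul]

include h hPQ hQP g in
theorem cmp_rr (γ : Γ) : cmp P Q (r γ) * cmp P Q (r γ⁻¹) = 1 := by
  rw [← cmp_mul hPQ hQP (g.rD γ⁻¹ _ (h.mem b)), g.rr γ, cmp_one hPQ hQP]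

include h hb hdet hPQ hQP g in
/-- conjugation by an element of the group preserves the Lie algebra of the component -/
theorem conj_mem (γ : Γ) {X : Module.End K (Fin n → K)} (hX : X ∈ Lc J S P Q) :
    phi (cmp P Q (r γ)) * X * phi (cmp P Q (r γ⁻¹)) ∈ Lc J S P Q := by
  have hpJ : (e b)ᵀ * J = J * e b := by
    have := h.adj b
    rwa [hb] at this
  have hdb := det_cmp hPQ hQP hpJ hdet
  obtain ⟨h1, h2⟩ := hX
  obtain ⟨x, rfl⟩ := (phi (ι := Fin n) (K := K)).surjective X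
  obtain ⟨A, hA, rfl⟩ := mem_Lb.1 h1
  have hAe := preL_ec (b := b) h g hA
  obtain ⟨hA1, d, hd⟩ := hA
  obtain ⟨h3, h4⟩ := g.preL_r γ hA1 hd
  have hconj : r γ * A * r γ⁻¹ ∈ preL J S := ⟨h3, d, h4⟩
  have hce := preL_ec (b := b) h g hconj
  have e1 : phi (cmp P Q (r γ)) * phi (cmp P Q A) * phi (cmp P Q (r γ⁻¹)) =
      phi (cmp P Q (r γ * A * r γ⁻¹)) := by
    rw [← map_mul, ← map_mul, cmp_mul hPQ hQP (g.rD _ _ (h.mem b)), cmp_mul hPQ hQP hAe]
  rw [e1]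
  refine ⟨mem_Lb.2 ⟨_, hconj, rfl⟩, ?_⟩
  rw [skew_iff hdb] at h2 ⊢
  rw [cmp_sim hPQ hQP hpJ hAe, hd] at h2
  rw [cmp_sim hPQ hQP hpJ hce, h4]
  exact h2

include h hPQ hQP g in
/-- polynomials in an element of the group -/
theorem aeval_comm (γ : Γ) (f : K[X]) :
    (aeval (r γ) f) * e b = e b * aeval (r γ) f ∧
    ∀ T : Module.End K (Fin n → K), T * phi (cmp P Q (r γ)) = phi (cmp P Q (r γ)) * T →
      T * phi (cmp P Q (aeval (r γ) f)) = phi (cmp P Q (aeval (r γ) f)) * T := by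
  have hre := g.rD γ _ (h.mem b)
  induction f using Polynomial.induction_on with
  | C a =>
    rw [aeval_C, Algebra.algebraMap_eq_smul_one]
    refine ⟨by rw [smul_mul_assoc, one_mul, mul_smul_comm, mul_one], fun T _ => ?_⟩
    rw [map_smul, cmp_one hPQ hQP, map_smul, map_one, mul_smul_comm, smul_mul_assoc, mul_one,
      one_mul]
  | add p q hp hq =>
    rw [map_add]
    refine ⟨by rw [add_mul, mul_add, hp.1, hq.1], fun T hT => ?_⟩
    rw [map_add, map_add, mul_add, add_mul, hp.2 T hT, hq.2 T hT]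
  | monomial k a ih =>
    have e1 : aeval (r γ) (C a * X ^ (k + 1)) = aeval (r γ) (C a * X ^ k) * r γ := by
      rw [pow_succ, ← mul_assoc, map_mul, aeval_X]
    rw [e1]
    refine ⟨?_, fun T hT => ?_⟩
    · rw [mul_assoc, hre, ← mul_assoc, ih.1, mul_assoc]
    · rw [cmp_mul hPQ hQP hre, map_mul, ← mul_assoc, ih.2 T hT, mul_assoc, hT, mul_assoc]

end

end Pool.Agent.H76V
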