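import Pool.Agent.Lib.H76V.VB1

/-!
# All transvections of a component
-/

set_option autoImplicit false
set_option linter.unusedSectionVars false
namespace Pool.Agent.H76V
open Module Matrix Polynomial Pool.Agent.H53Toric Pool.Agent.H76U Pool.Agent.H76F
open Pool.Agent.H76RM (zar_commute zlie_commute van)
open Pool.Agent.H76T (Lc mem_Lc Nil)

variable {ι : Type*} [Fintype ι] [DecidableEq ι] {K : Type*} [Field K]

/-- The conditions on a component of rank `n` cut out by `p`. -/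
def TorN (S : Set (Matrix ι ι K)) (J : Matrix ι ι K) {Γ : Type*} [Group Γ]
    (r : Γ →* Matrix ι ι K) (p : Matrix ι ι K) (n : ℕ) : Prop :=
  ¬ 4 ∣ n ∨ ((∃ N : Matrix ι ι K, Nil S J N ∧ N * p ≠ 0 ∧
      ∀ a : ℕ, Even a → 2 * a ∣ n → a ∣ (N * p).rank → (a = 2 → 4 ∣ (N * p).rank) →
      ∃ (γ : Γ) (c : K) (f : K[X]), c ≠ 0 ∧ r γ * N * p = c • (N * p) ∧
        (aeval (r γ) f * p) * (aeval (r γ) f * p) = aeval (r γ) f * p ∧
        ¬ a ∣ (aeval (r γ) f * p).rank) ∧
    (∀ m : ℕ, 5 ≤ m → (m % 4 = 1 ∨ m % 4 = 2) → n = 2 ^ m →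
      ∃ N : Matrix ι ι K, Nil S J N ∧ N * p ≠ 0 ∧ 4 * (N * p).rank ≠ n ∧
        2 * (N * p).rank ≠ n) ∧
    (∀ k : ℕ, 3 ≤ k → Odd k → n = k.centralBinom →
      ∃ N : Matrix ι ι K, Nil S J N ∧ N * p ≠ 0 ∧ (N * p).rank ≠ (k - 1).centralBinom))

section
variable [CharZero K] [IsAlgClosed K] {B : Type*} [Fintype B] [DecidableEq B]
    {J : Matrix ι ι K} {DD : Submodule K (Matrix ι ι K)}
    {bar : B → B} {e : B → Matrix ι ι K} (h : Split4 J DD bar e) {b : B} (hb : bar b = b)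
    (hJ : Jᵀ = -J) (hdet : IsUnit J.det)
    {n : ℕ} {P : Matrix ι (Fin n) K} {Q : Matrix (Fin n) ι K}
    (hPQ : e b = P * Q) (hQP : Q * P = 1)
    {S : Set (Matrix ι ι K)}
    {Γ : Type*} [Group Γ] {r : Γ →* Matrix ι ι K} {𝓗 : Set (Matrix ι ι K)}
    (g : SH S J DD r 𝓗)

include h hb hJ hdet hPQ hQP g in
/-- The Lie algebra of the component is as large as possible. -/
theorem comp_full (hn : 0 < n) (num : TorN S J r (e b) n) {X : Module.End K (Fin n → K)}
    (hX : adjE (Pᵀ * J * P) X = -X) : X ∈ Lc J S P Q := by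
  have hpJ : (e b)ᵀ * J = J * e b := by
    have := h.adj b
    rwa [hb] at this
  have hdb := det_cmp hPQ hQP hpJ hdet
  have : Nonempty (Fin n) := ⟨⟨0, hn⟩⟩
  have hcomp := cmp_comp h hb hJ hdet hPQ hQP g hn
  refine hcomp.full ?_ hX
  rcases num with h4 | ⟨⟨N, hN, hN0, ha⟩, hm, hk⟩
  · left
    rw [Fintype.card_fin]
    exact h4
  right
  refine ⟨?_, ?_, ?_⟩
  rotate_left
  · rw [Fintype.card_fin]
    intro m hm5 hm4 hc
    obtain ⟨N, hN, hN0, hr1, hr2⟩ := hm m hm5 hm4 hc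
    obtain ⟨h1, h2, h3, h4⟩ := nil_mem h hb hdet hPQ hQP g hN
    exact ⟨phi (cmp P Q N), h1, h2, h4 hN0, by rw [h3]; exact hr1, by rw [h3]; exact hr2⟩
  · rw [Fintype.card_fin]
    intro k hk3 hko hc
    obtain ⟨N, hN, hN0, hr⟩ := hk k hk3 hko hc
    obtain ⟨h1, h2, h3, h4⟩ := nil_mem h hb hdet hPQ hQP g hN
    exact ⟨phi (cmp P Q N), h1, h2, h4 hN0, by rw [h3]; exact hr⟩
  · obtain ⟨h1, h2, h3, h4⟩ := nil_mem h hb hdet hPQ hQP g hN
    refine ⟨phi (cmp P Q N), h1, h2, h4 hN0, ?_⟩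
    rw [Fintype.card_fin, h3]
    intro a hae han har ha4
    obtain ⟨γ, c, f, hc, hxN, hff, hnd⟩ := ha a hae han har ha4
    obtain ⟨s, hs0, hs⟩ := g.sim γ
    have hre := g.rD γ _ (h.mem b)
    have hre' := g.rD γ⁻¹ _ (h.mem b)
    obtain ⟨hNz, hNs, hN2⟩ := hN
    have hNL : N ∈ preL J S :=
      ⟨⟨0, N, hNz, by rw [zero_smul, add_zero]⟩, 0, by rw [hNs, zero_smul]⟩
    have hNe := preL_ec (b := b) h g hNL
    obtain ⟨hfe, hfc⟩ := aeval_comm h hPQ hQP g γ f
    -- the relation on the other side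
    have hNx : N * r γ * e b = (s * c⁻¹) • (N * e b) := by
      -- adjoint of the relation
      have e1 : (e b)ᵀ * Nᵀ * (r γ)ᵀ = c • ((e b)ᵀ * Nᵀ) := by
        have := congrArg Matrix.transpose hxN
        rw [Matrix.transpose_mul, Matrix.transpose_mul, Matrix.transpose_smul,
          Matrix.transpose_mul, ← Matrix.mul_assoc] at this
        exact this
      have e2 : (e b)ᵀ * Nᵀ * J = -(J * (N * e b)) := by
        have h5 : Nᵀ * J = -(J * N) := eq_neg_of_add_eq_zero_left hNs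
        rw [Matrix.mul_assoc, h5, Matrix.mul_neg, ← Matrix.mul_assoc, hpJ, Matrix.mul_assoc,
          hNe]
      have e3 : (e b)ᵀ * Nᵀ * ((r γ)ᵀ * J * r γ) = c • ((e b)ᵀ * Nᵀ * J * r γ) := by
        calc (e b)ᵀ * Nᵀ * ((r γ)ᵀ * J * r γ) = ((e b)ᵀ * Nᵀ * (r γ)ᵀ) * J * r γ := by
              noncomm_ring
          _ = _ := by rw [e1, smul_mul_assoc, smul_mul_assoc]
      rw [hs, mul_smul_comm, e2, Matrix.neg_mul] at e3
      have e4 : J * (s • (N * e b)) = J * (c • (N * e b * r γ)) := by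
        rw [mul_smul_comm, mul_smul_comm, ← Matrix.mul_assoc J (N * e b)]
        rw [smul_neg, smul_neg] at e3
        exact neg_injective e3
      have e5 : s • (N * e b) = c • (N * e b * r γ) := by
        have h6 := congrArg (fun M => J⁻¹ * M) e4
        simp only [← Matrix.mul_assoc, Matrix.nonsing_inv_mul _ hdet] at h6
        simpa using h6
      rw [Matrix.mul_assoc N (r γ), hre, ← Matrix.mul_assoc]
      have h7 : N * e b * r γ = c⁻¹ • (c • (N * e b * r γ)) := by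
        rw [smul_smul, inv_mul_cancel₀ hc, one_smul]
      rw [h7, ← e5, smul_smul, mul_comm]
    have hcmpN : ∀ A : Matrix ι ι K, cmp P Q A = cmp P Q (A * e b) := by
      intro A
      rw [cmp_apply, cmp_apply]
      calc Q * A * P = Q * A * (e b * P) := by rw [p_P hPQ hQP]
        _ = _ := by simp only [Matrix.mul_assoc]
    have hff' : cmp P Q (aeval (r γ) f) * cmp P Q (aeval (r γ) f) =
        cmp P Q (aeval (r γ) f) := by
      rw [← cmp_mul hPQ hQP hfe, hcmpN, hcmpN (aeval (r γ) f), ← hff]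
      congr 1
      calc aeval (r γ) f * aeval (r γ) f * e b =
          aeval (r γ) f * aeval (r γ) f * (e b * e b) := by rw [h.idem b]
        _ = aeval (r γ) f * (aeval (r γ) f * e b) * e b := by noncomm_ring
        _ = aeval (r γ) f * (e b * aeval (r γ) f) * e b := by rw [hfe]
        _ = _ := by noncomm_ring
    refine ⟨phi (cmp P Q (r γ)), phi (cmp P Q (r γ⁻¹)), c, s * c⁻¹,
      phi (cmp P Q (aeval (r γ) f)), ?_, ?_, ?_, ?_, hc, mul_ne_zero hs0 (inv_ne_zero hc),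
      ?_, ?_, ?_, hfc, ?_⟩
    · rw [← map_mul, cmp_rr h hPQ hQP g, map_one]
    · have := cmp_rr h hPQ hQP g γ⁻¹
      rw [inv_inv] at this
      rw [← map_mul, this, map_one]
    · exact fun X hX => conj_mem h hb hdet hPQ hQP g γ hX
    · intro X hX
      have := conj_mem h hb hdet hPQ hQP g γ⁻¹ hX
      rwa [inv_inv] at this
    · rw [← map_mul, ← cmp_mul hPQ hQP hNe, hcmpN, hxN, map_smul, map_smul, ← hcmpN]
    · rw [← map_mul, ← cmp_mul hPQ hQP hre, hcmpN, hNx, map_smul, map_smul, ← hcmpN]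
    · rw [← map_mul, hff']
    · change ¬ a ∣ (cmp P Q (aeval (r γ) f)).rank
      rw [rank_cmp hPQ hQP hfe]
      exact hnd

include h hb hJ hdet hPQ hQP g in
/-- all the transvections of the component -/
theorem fu_tor (hn : 0 < n) (num : TorN S J r (e b) n) {u : ι → K} (hu : e b *ᵥ u = u) :
    ∃ A ∈ zlie S, Aᵀ * J + J * A = 0 ∧ phi A * phi (e b) = tw (om J) u u := by
  have hpJ : (e b)ᵀ * J = J * e b := by
    have := h.adj b
    rwa [hb] at this
  have hdb := det_cmp hPQ hQP hpJ hdet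
  have hJb : (Pᵀ * J * P)ᵀ = -(Pᵀ * J * P) := by
    rw [Matrix.transpose_mul, Matrix.transpose_mul, Matrix.transpose_transpose, hJ,
      Matrix.neg_mul, Matrix.mul_neg, Matrix.mul_assoc]
  have : Nonempty (Fin n) := ⟨⟨0, hn⟩⟩
  have hcomp := cmp_comp h hb hJ hdet hPQ hQP g hn
  have hfull : ∀ {X : Module.End K (Fin n → K)}, adjE (Pᵀ * J * P) X = -X →
      X ∈ Lc J S P Q := fun hX => comp_full h hb hJ hdet hPQ hQP g hn num hX
  set d := Q *ᵥ u with hd
  have hPd : P *ᵥ d = u := by rw [hd, Matrix.mulVec_mulVec, ← hPQ, hu]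
  set X := Matrix.vecMulVec d ((Pᵀ * J * P) *ᵥ d) with hX
  have hXphi : phi X = trv (om (Pᵀ * J * P)) d := phi_trv _ _
  have hX2 : X * X = 0 := by
    apply (phi (ι := Fin n) (K := K)).injective
    rw [map_mul, hXphi, map_zero, trv_sq (om_alt hJb)]
  have hXg := hfull ((skew_iff hdb X).2 (trv_skew hJb d))
  obtain ⟨M, hM, hXMX⟩ := exists_partner hcomp.lie hcomp.irr hcomp.tr hXg
    (by rw [← map_mul, hX2, map_zero])
  obtain ⟨m, rfl⟩ := (phi (ι := Fin n) (K := K)).surjective M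
  obtain ⟨A, hA, hAX⟩ := mem_Lb.1 hXg.1
  obtain ⟨C, hC, hCm⟩ := mem_Lb.1 hM.1
  have e1 : X * m * X = X := by
    apply (phi (ι := Fin n) (K := K)).injective
    rw [map_mul, map_mul, hXMX]
  have hAe := preL_ec (b := b) h g hA
  have hCe := preL_ec (b := b) h g hC
  obtain ⟨h1, h2⟩ := preL_bracket hA hC
  have hE : A * C - C * A ∈ preL J S :=
    ⟨⟨0, _, h1, by rw [zero_smul, add_zero]⟩, 0, by rw [h2, zero_smul]⟩
  have hEe := preL_ec (b := b) h g hE
  obtain ⟨h3, h4⟩ := preL_bracket hE hA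
  have e2 : cmp P Q ((A * C - C * A) * A - A * (A * C - C * A)) = (2 : K) • X := by
    rw [map_sub, cmp_mul hPQ hQP hAe, cmp_mul hPQ hQP hEe, map_sub, cmp_mul hPQ hQP hCe,
      cmp_mul hPQ hQP hAe, hAX, hCm]
    have : (X * m - m * X) * X - X * (X * m - m * X) =
        (2 : K) • (X * m * X) - m * (X * X) - (X * X) * m := by
      rw [two_smul]; noncomm_ring
    rw [this, e1, hX2]; simp
  set E := (A * C - C * A) * A - A * (A * C - C * A) with hEdef
  have hEL : E ∈ preL J S :=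
    ⟨⟨0, _, h3, by rw [zero_smul, add_zero]⟩, 0, by rw [h4, zero_smul]⟩
  have hEe' := preL_ec (b := b) h g hEL
  refine ⟨(1 / 2 : K) • E, (zlie S).smul_mem _ h3, ?_, ?_⟩
  · rw [Matrix.transpose_smul, smul_mul_assoc, mul_smul_comm, ← smul_add, h4, smul_zero]
  · rw [← map_mul]
    apply LinearMap.ext
    intro v
    rw [phi_apply, tw_apply, smul_mul_assoc, Matrix.smul_mulVec]
    have h5 : E * e b = P * cmp P Q E * Q := by
      rw [P_cmp hPQ hQP hEe', Matrix.mul_assoc, ← hPQ]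
    rw [h5, e2, Matrix.mul_smul, Matrix.smul_mul, Matrix.smul_mulVec, smul_smul]
    norm_num
    rw [← Matrix.mulVec_mulVec, ← Matrix.mulVec_mulVec, ← phi_apply X, hXphi, trv_apply,
      Matrix.mulVec_smul, hPd, om_cmp hPQ hQP hpJ, hPd, Matrix.mulVec_mulVec _ P Q, ← hPQ,
      h.self, hb, hu]

end

end Pool.Agent.H76V
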